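import Pool.Agent.Y2.Cv.Check

/-!
Certificates for the levels 44, 52, 70, 102, 114, 132, 140, 156, 210.
-/

namespace Pool.Agent.Y2.Cv

open Pool.Agent.H916R2

/-- a five-entry character of degree 44 -/
def f44_0 : Five := ⟨![11, 19, 29, 31, 42], [(2, ![4, 0, 0, 0, 0]), (1, ![0, 3, 0, 1, 0]), (2, ![1, 1, 2, 0, 0]), (1, ![0, 0, 1, 9, 0]), (5, ![0, 1, 1, 0, 2])], 10⟩

/-- a five-entry character of degree 44 -/
def f44_1 : Five := ⟨![27, 23, 16, 15, 7], [(2, ![3, 0, 0, 0, 1]), (5, ![1, 2, 0, 1, 0]), (1, ![0, 0, 11, 0, 0]), (3, ![0, 0, 0, 2, 2]), (1, ![0, 1, 0, 0, 3])], 11⟩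

lemma product_44 : CurveProduct 44 (ms 44 [11, 19, 29, 31, 42, 27, 23, 16, 15, 7]) :=
  product_sound (L₁ := [11, 19, 29, 31, 42]) (L₂ := [27, 23, 16, 15, 7]) rfl (by decide +kernel)
    (fiveB_sound (f := f44_0) (by decide +kernel) (by decide +kernel) (by decide +kernel))
    (fiveB_sound (f := f44_1) (by decide +kernel) (by decide +kernel) (by decide +kernel))

theorem full_44 : FullP 44 (SurfaceOrCurveProduct 44) :=
  full_of_checkC (by norm_num) [11, 19, 29, 31, 42, 27, 23, 16, 15, 7] (Or.inr product_44)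
    [17, 7, 12, 18, 14, 19, 8, 13, 1, 10]
    [.surf 29 7 22 30, .surf 16 7 29 36, .surf 4 26 28 30, .surf 6 22 28 32, .surf 3 22 25 38,
      .surf 9 22 26 31, .curve 19 33, .curve 17 39, .curve 21 2, .curve 1 23, .curve 15 20]
    (by decide +kernel) (by decide +kernel)

/-- a five-entry character of degree 52 -/
def f52_0 : Five := ⟨![17, 25, 37, 38, 39], [(1, ![7, 0, 1, 0, 0]), (7, ![1, 2, 1, 0, 0]), (2, ![0, 0, 6, 1, 0]), (6, ![1, 1, 0, 3, 0]), (5, ![0, 0, 0, 0, 4])], 20⟩

/-- a five-entry character of degree 52 -/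
def f52_1 : Five := ⟨![33, 29, 21, 13, 8], [(1, ![4, 0, 0, 0, 3]), (4, ![1, 2, 0, 1, 0]), (8, ![1, 1, 2, 0, 0]), (3, ![0, 0, 0, 4, 0]), (1, ![0, 0, 0, 0, 13])], 16⟩

lemma product_52 : CurveProduct 52 (ms 52 [17, 25, 37, 38, 39, 33, 29, 21, 13, 8]) :=
  product_sound (L₁ := [17, 25, 37, 38, 39]) (L₂ := [33, 29, 21, 13, 8]) rfl (by decide +kernel)
    (fiveB_sound (f := f52_0) (by decide +kernel) (by decide +kernel) (by decide +kernel))
    (fiveB_sound (f := f52_1) (by decide +kernel) (by decide +kernel) (by decide +kernel))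

theorem full_52 : FullP 52 (SurfaceOrCurveProduct 52) :=
  full_of_checkC (by norm_num) [17, 25, 37, 38, 39, 33, 29, 21, 13, 8] (Or.inr product_52)
    [17, 7, 12, 24, 22, 18, 8, 13, 15, 25, 10, 5]
    [.surf 33 7 24 40, .surf 38 7 26 33, .surf 9 26 34 35, .surf 36 8 17 43, .surf 4 30 34 36,
      .surf 2 14 40 48, .surf 11 26 30 37, .surf 1 27 28 48, .surf 20 8 34 42, .surf 6 28 32 38,
      .curve 25 49, .curve 23 31, .curve 11 23]
    (by decide +kernel) (by decide +kernel)

/-- a five-entry character of degree 70 -/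
def f70_0 : Five := ⟨![1, 20, 42, 62, 15], [(1, ![8, 0, 0, 1, 0]), (1, ![0, 7, 0, 0, 0]), (3, ![0, 0, 5, 0, 0]), (7, ![1, 0, 0, 2, 1]), (4, ![0, 2, 0, 0, 2])], 15⟩

lemma product_70 : CurveProduct 70 (ms 70 [1, 20, 42, 62, 15, 24, 55, 61]) :=
  product_sound (L₁ := [1, 20, 42, 62, 15]) (L₂ := [24, 55, 61]) rfl (by decide +kernel)
    (fiveB_sound (f := f70_0) (by decide +kernel) (by decide +kernel) (by decide +kernel))
    (three_sound (by decide +kernel) (by decide +kernel))

theorem full_70 : FullP 70 (SurfaceOrCurveProduct 70) :=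
  full_of_checkC (by norm_num) [1, 20, 42, 62, 15, 24, 55, 61] (Or.inr product_70)
    [15, 26, 34, 24, 12, 10, 8, 18, 21, 20, 22, 32]
    [.surf 47 12 35 46, .surf 9 35 44 52, .surf 53 9 34 44, .surf 40 15 35 50, .surf 45 10 30 55,
      .surf 5 40 45 50, .dist 5 6 6, .surf 41 6 46 47, .surf 11 35 46 48, .surf 57 11 26 46,
      .curve 13 56, .curve 23 3, .dist 5 3 31, .surf 4 35 39 62, .surf 42 14 35 49, .curve 31 1,
      .dist 5 1 43, .curve 27 37, .curve 33 16, .dist 5 2 2, .surf 51 16 35 38, .dist 7 1 63]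
    (by decide +kernel) (by decide +kernel)

/-- a five-entry character of degree 102 -/
def f102_0 : Five := ⟨![36, 49, 68, 74, 79], [(1, ![17, 0, 0, 0, 0]), (1, ![1, 0, 0, 0, 6]), (8, ![0, 0, 3, 0, 0]), (6, ![1, 4, 0, 1, 0]), (9, ![0, 0, 0, 2, 2])], 24⟩

/-- a five-entry character of degree 102 -/
def f102_1 : Five := ⟨![61, 56, 43, 23, 21], [(3, ![3, 0, 0, 0, 1]), (1, ![1, 4, 0, 0, 1]), (1, ![0, 0, 9, 0, 1]), (5, ![0, 1, 0, 2, 0]), (1, ![0, 1, 1, 0, 5])], 10⟩

lemma product_102 : CurveProduct 102 (ms 102 [36, 49, 68, 74, 79, 61, 56, 43, 23, 21]) :=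
  product_sound (L₁ := [36, 49, 68, 74, 79]) (L₂ := [61, 56, 43, 23, 21]) rfl (by decide +kernel)
    (fiveB_sound (f := f102_0) (by decide +kernel) (by decide +kernel) (by decide +kernel))
    (fiveB_sound (f := f102_1) (by decide +kernel) (by decide +kernel) (by decide +kernel))

theorem full_102 : FullP 102 (SurfaceOrCurveProduct 102) :=
  full_of_checkC (by norm_num) [36, 49, 68, 74, 79, 61, 56, 43, 23, 21] (Or.inr product_102)
    [29, 35, 31, 49, 24, 37, 38, 7, 44, 2, 1, 26, 30, 16, 27, 47]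
    [.surf 22 51 58 73, .surf 88 7 29 80, .surf 74 14 51 65, .surf 98 2 51 53, .surf 52 1 53 98,
      .surf 13 51 64 76, .surf 77 13 50 64, .surf 10 44 72 78, .surf 90 4 38 72,
      .surf 63 12 51 78, .surf 83 16 38 67, .surf 70 19 51 64, .surf 54 12 63 75,
      .surf 84 16 50 54, .surf 81 13 47 63, .surf 60 21 51 72, .surf 82 14 48 60,
      .surf 11 31 80 82, .surf 62 11 58 73, .surf 61 10 62 71, .surf 6 40 74 84, .curve 31 68,
      .curve 43 87, .curve 25 97, .surf 56 5 61 82, .curve 49 9, .surf 43 9 75 77, .curve 47 69,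
      .curve 13 79, .surf 45 11 69 79, .curve 7 8, .curve 29 99, .surf 66 18 51 69,
      .surf 17 51 68 68]
    (by decide +kernel) (by decide +kernel)

/-- a five-entry character of degree 114 -/
def f114_0 : Five := ⟨![1, 36, 57, 61, 73], [(3, ![5, 1, 0, 0, 1]), (1, ![0, 19, 0, 0, 0]), (12, ![0, 0, 2, 0, 0]), (2, ![1, 1, 0, 5, 0]), (7, ![1, 0, 0, 2, 3])], 24⟩

/-- a five-entry character of degree 114 -/
def f114_1 : Five := ⟨![111, 109, 57, 39, 26], [(1, ![2, 4, 0, 0, 1]), (2, ![0, 0, 2, 0, 0]), (1, ![1, 0, 0, 3, 0]), (1, ![1, 0, 0, 1, 3])], 4⟩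

lemma product_114 : CurveProduct 114 (ms 114 [1, 36, 57, 61, 73, 111, 109, 57, 39, 26]) :=
  product_sound (L₁ := [1, 36, 57, 61, 73]) (L₂ := [111, 109, 57, 39, 26]) rfl (by decide +kernel)
    (fiveB_sound (f := f114_0) (by decide +kernel) (by decide +kernel) (by decide +kernel))
    (fiveB_sound (f := f114_1) (by decide +kernel) (by decide +kernel) (by decide +kernel))

theorem full_114 : FullP 114 (SurfaceOrCurveProduct 114) :=
  full_of_checkC (by norm_num) [1, 36, 57, 61, 73, 111, 109, 57, 39, 26] (Or.inr product_114)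
    [4, 27, 12, 44, 2, 39, 40, 38, 15, 48, 36, 33, 30, 20, 52, 46, 10, 16]
    [.surf 59 2 57 110, .surf 19 57 76 76, .surf 18 57 75 78, .surf 9 57 66 96,
      .surf 108 2 40 78, .surf 82 6 44 96, .surf 63 6 57 102, .surf 69 12 66 81,
      .surf 90 12 57 69, .surf 72 15 57 84, .surf 93 18 42 75, .surf 17 55 63 93,
      .surf 80 17 57 74, .surf 54 15 72 87, .surf 3 60 63 102, .surf 56 18 60 94,
      .surf 1 58 59 110, .surf 77 1 39 111, .surf 14 52 72 90, .surf 91 17 46 74,
      .surf 53 15 69 91, .surf 106 4 57 61, .surf 67 10 74 77, .surf 85 9 47 87,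
      .surf 71 14 58 85, .surf 86 14 57 71, .surf 5 43 81 99, .curve 5 89, .curve 55 49,
      .curve 29 83, .curve 35 35, .curve 37 50, .surf 73 16 50 89, .curve 53 107, .curve 47 11,
      .curve 17 101, .curve 43 92, .dist 19 2 26]
    (by decide +kernel) (by decide +kernel)

/-- a five-entry character of degree 132 -/
def f132_0 : Five := ⟨![33, 57, 87, 93, 126], [(2, ![4, 0, 0, 0, 0]), (1, ![0, 3, 0, 1, 0]), (2, ![1, 1, 2, 0, 0]), (1, ![0, 0, 1, 9, 0]), (5, ![0, 1, 1, 0, 2])], 10⟩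

/-- a five-entry character of degree 132 -/
def f132_1 : Five := ⟨![81, 69, 48, 45, 21], [(2, ![3, 0, 0, 0, 1]), (5, ![1, 2, 0, 1, 0]), (1, ![0, 0, 11, 0, 0]), (3, ![0, 0, 0, 2, 2]), (1, ![0, 1, 0, 0, 3])], 11⟩

lemma product_132 : CurveProduct 132 (ms 132 [33, 57, 87, 93, 126, 81, 69, 48, 45, 21]) :=
  product_sound (L₁ := [33, 57, 87, 93, 126]) (L₂ := [81, 69, 48, 45, 21]) rfl (by decide +kernel)
    (fiveB_sound (f := f132_0) (by decide +kernel) (by decide +kernel) (by decide +kernel))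
    (fiveB_sound (f := f132_1) (by decide +kernel) (by decide +kernel) (by decide +kernel))

theorem full_132 : FullP 132 (SurfaceOrCurveProduct 132) :=
  full_of_checkC (by norm_num) [33, 57, 87, 93, 126, 81, 69, 48, 45, 21] (Or.inr product_132)
    [54, 48, 50, 9, 60, 24, 10, 36, 28, 62, 4, 15, 63, 55, 45, 17, 19, 7, 23, 31]
    [.surf 90 24 66 84, .surf 12 78 84 90, .surf 6 66 72 120, .surf 18 66 84 96,
      .surf 102 18 60 84, .surf 98 10 54 102, .surf 75 9 66 114, .surf 94 6 50 114,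
      .surf 16 60 84 104, .surf 68 16 82 98, .surf 20 64 72 108, .surf 76 10 66 112,
      .surf 100 12 56 96, .surf 106 18 62 78, .surf 44 20 94 106, .surf 22 66 88 88,
      .surf 92 4 78 90, .surf 80 26 66 92, .dist 11 4 124, .surf 74 8 66 116, .surf 14 58 90 102,
      .surf 86 14 76 88, .dist 11 2 2, .surf 81 15 72 96, .surf 3 69 72 120, .surf 33 66 77 88,
      .surf 11 66 88 99, .curve 35 39, .curve 41 21, .curve 29 105, .surf 83 17 66 98,
      .surf 5 49 93 117, .surf 71 5 76 112, .surf 85 19 66 94, .surf 91 3 47 123,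
      .surf 25 66 82 91, .surf 73 7 80 104, .surf 103 15 59 87, .surf 95 29 66 74,
      .surf 65 21 69 109, .surf 1 67 68 128, .surf 89 1 45 129, .dist 11 5 53, .surf 13 79 80 92,
      .dist 11 1 97]
    (by decide +kernel) (by decide +kernel)

/-- a five-entry character of degree 140 -/
def f140_0 : Five := ⟨![2, 40, 84, 124, 30], [(1, ![8, 0, 0, 1, 0]), (1, ![0, 7, 0, 0, 0]), (3, ![0, 0, 5, 0, 0]), (7, ![1, 0, 0, 2, 1]), (4, ![0, 2, 0, 0, 2])], 15⟩

lemma product_140 : CurveProduct 140 (ms 140 [2, 40, 84, 124, 30, 48, 110, 122]) :=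
  product_sound (L₁ := [2, 40, 84, 124, 30]) (L₂ := [48, 110, 122]) rfl (by decide +kernel)
    (fiveB_sound (f := f140_0) (by decide +kernel) (by decide +kernel) (by decide +kernel))
    (three_sound (by decide +kernel) (by decide +kernel))

theorem full_140 : FullP 140 (SurfaceOrCurveProduct 140) :=
  full_of_checkC (by norm_num) [2, 40, 84, 124, 30, 48, 110, 122] (Or.inr product_140)
    [27, 49, 67, 17, 63, 60, 7, 68, 58, 46, 12, 26, 45, 22, 69, 37, 29, 30, 18, 19, 33, 47, 55, 39]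
    [.surf 84 49 70 77, .surf 98 7 84 91, .surf 28 70 84 98, .surf 14 42 112 112,
      .surf 119 14 63 84, .surf 92 12 82 94, .surf 24 70 92 94, .surf 52 22 92 114,
      .surf 96 26 70 88, .surf 99 29 70 82, .surf 100 30 70 80, .curve 13 64, .surf 6 76 82 116,
      .curve 23 124, .surf 3 70 73 134, .curve 9 136, .dist 7 4 104, .surf 87 17 72 104,
      .surf 106 17 70 87, .surf 2 36 106 136, .surf 1 70 71 138, .surf 74 33 70 103,
      .curve 33 32, .curve 11 20, .curve 31 62, .curve 19 38, .curve 29 132, .surf 86 8 78 108,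
      .dist 5 2 130, .dist 5 10 90, .surf 25 70 90 95, .surf 97 27 70 86, .surf 89 19 70 102,
      .dist 7 7 127, .surf 83 13 88 96, .dist 7 3 23, .dist 5 1 135, .dist 5 5 61,
      .surf 9 79 88 104, .dist 5 9 65, .dist 5 13 125, .surf 105 5 45 125, .dist 7 1 81,
      .dist 5 3 31, .dist 7 9 129]
    (by decide +kernel) (by decide +kernel)

/-- a five-entry character of degree 156 -/
def f156_0 : Five := ⟨![51, 75, 111, 114, 117], [(1, ![7, 0, 1, 0, 0]), (7, ![1, 2, 1, 0, 0]), (2, ![0, 0, 6, 1, 0]), (6, ![1, 1, 0, 3, 0]), (5, ![0, 0, 0, 0, 4])], 20⟩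

/-- a five-entry character of degree 156 -/
def f156_1 : Five := ⟨![99, 87, 63, 39, 24], [(1, ![4, 0, 0, 0, 3]), (4, ![1, 2, 0, 1, 0]), (8, ![1, 1, 2, 0, 0]), (3, ![0, 0, 0, 4, 0]), (1, ![0, 0, 0, 0, 13])], 16⟩

lemma product_156 : CurveProduct 156 (ms 156 [51, 75, 111, 114, 117, 99, 87, 63, 39, 24]) :=
  product_sound (L₁ := [51, 75, 111, 114, 117]) (L₂ := [99, 87, 63, 39, 24]) rfl (by decide +kernel)
    (fiveB_sound (f := f156_0) (by decide +kernel) (by decide +kernel) (by decide +kernel))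
    (fiveB_sound (f := f156_1) (by decide +kernel) (by decide +kernel) (by decide +kernel))

theorem full_156 : FullP 156 (SurfaceOrCurveProduct 156) :=
  full_of_checkC (by norm_num) [51, 75, 111, 114, 117, 99, 87, 63, 39, 24] (Or.inr product_156)
    [59, 22, 53, 55, 24, 12, 14, 52, 65, 29, 15, 5, 41, 33, 25, 71, 67, 9, 54, 28, 6, 36, 17, 75]
    [.surf 90 12 78 132, .surf 26 78 104 104, .surf 39 78 91 104, .surf 13 78 104 117,
      .surf 111 33 78 90, .surf 106 25 78 103, .surf 7 78 85 142, .surf 135 7 59 111,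
      .surf 119 15 67 111, .surf 82 37 78 115, .surf 126 22 74 90, .surf 93 15 78 126,
      .surf 11 63 115 123, .surf 146 7 74 85, .surf 83 5 78 146, .surf 125 21 73 93,
      .surf 60 24 102 126, .surf 108 30 78 96, .surf 56 25 103 128, .surf 92 14 100 106,
      .surf 112 22 78 100, .surf 8 60 112 132, .surf 4 41 119 148, .surf 84 6 90 132,
      .surf 76 24 84 128, .surf 2 80 82 148, .surf 99 21 72 120, .surf 114 21 78 99,
      .surf 18 84 96 114, .surf 87 9 78 138, .surf 118 14 66 114, .surf 19 78 97 118,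
      .surf 116 19 80 97, .surf 94 22 80 116, .surf 109 31 78 94, .curve 37 51, .curve 49 3,
      .curve 25 27, .surf 77 25 81 129, .dist 13 5 113, .surf 61 9 113 129, .surf 88 17 95 112,
      .surf 122 22 68 100, .surf 70 18 102 122, .surf 98 28 86 100, .dist 13 2 110,
      .surf 16 92 94 110, .surf 124 16 47 125, .dist 13 4 136, .surf 49 20 116 127,
      .surf 23 64 101 124, .surf 121 8 43 140, .dist 13 1 1]
    (by decide +kernel) (by decide +kernel)

/-- a five-entry character of degree 210 -/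
def f210_0 : Five := ⟨![3, 60, 126, 186, 45], [(1, ![8, 0, 0, 1, 0]), (1, ![0, 7, 0, 0, 0]), (3, ![0, 0, 5, 0, 0]), (7, ![1, 0, 0, 2, 1]), (4, ![0, 2, 0, 0, 2])], 15⟩

lemma product_210 : CurveProduct 210 (ms 210 [3, 60, 126, 186, 45, 72, 165, 183]) :=
  product_sound (L₁ := [3, 60, 126, 186, 45]) (L₂ := [72, 165, 183]) rfl (by decide +kernel)
    (fiveB_sound (f := f210_0) (by decide +kernel) (by decide +kernel) (by decide +kernel))
    (three_sound (by decide +kernel) (by decide +kernel))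

theorem full_210 : FullP 210 (SurfaceOrCurveProduct 210) :=
  full_of_checkC (by norm_num) [3, 60, 126, 186, 45, 72, 165, 183] (Or.inr product_210)
    [21, 16, 42, 86, 43, 70, 48, 50, 56, 51, 94, 53, 97, 71, 4, 74, 75, 47, 10, 17, 81, 44, 82, 12]
    [.surf 126 21 105 168, .surf 147 42 105 126, .surf 148 43 105 124, .surf 119 70 105 126,
      .surf 49 119 126 126, .surf 35 84 140 161, .surf 77 35 147 161, .dist 5 7 7,
      .surf 156 16 86 162, .surf 28 105 133 154, .surf 14 84 140 182, .dist 5 14 98,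
      .surf 108 51 105 156, .surf 8 105 113 194, .surf 109 4 113 194, .surf 31 105 136 148,
      .surf 152 47 105 116, .surf 87 17 157 159, .surf 27 97 129 167, .surf 132 27 105 156,
      .surf 186 8 78 148, .surf 117 12 129 162, .surf 171 31 101 117, .surf 144 39 105 132,
      .surf 174 12 82 152, .curve 17 180, .curve 11 33, .surf 138 33 105 144, .dist 7 12 192,
      .surf 141 18 123 138, .surf 23 93 141 163, .surf 164 23 105 128, .surf 150 30 105 135,
      .curve 43 99, .curve 37 120, .curve 61 6, .curve 67 201, .dist 5 9 165,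
      .surf 15 60 165 180, .dist 5 15 57, .dist 7 3 3, .curve 31 96, .surf 26 96 132 166,
      .surf 1 71 141 207, .surf 125 10 90 195, .surf 55 105 125 135, .surf 130 30 105 155,
      .surf 40 90 130 160, .dist 5 2 2, .surf 107 2 109 202, .surf 173 33 103 111,
      .surf 34 74 139 173, .dist 7 4 64, .surf 41 105 128 146, .surf 29 99 123 169,
      .surf 134 29 105 152, .dist 7 14 104, .surf 131 26 106 157, .surf 158 26 105 131,
      .dist 5 10 178, .surf 172 32 102 114, .surf 67 29 152 172, .dist 7 7 127, .dist 5 1 205,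
      .surf 145 5 120 150, .dist 5 13 13, .dist 7 13 73, .surf 121 16 137 146, .dist 5 5 185,
      .dist 7 5 95, .dist 5 11 11, .dist 7 11 191, .dist 5 19 61, .dist 7 1 151,
      .surf 118 23 128 151, .dist 7 2 122, .dist 5 4 190, .dist 7 10 100, .dist 5 20 188,
      .dist 7 8 68]
    (by decide +kernel) (by decide +kernel)

end Pool.Agent.Y2.Cv
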