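import Pool.Agent.Y2.Cv.Full
import Pool.Agent.H916R2.Check

/-!
A certificate checker for `FullP m (SurfaceOrCurveProduct m)`.
-/

namespace Pool.Agent.Y2.Cv

open Pool.Agent.H916R2 Finset

set_option linter.unusedSectionVars false

variable {m : ℕ} [NeZero m]

/-- the multiset of residues of a list of natural numbers -/
def ms (m : ℕ) (L : List ℕ) : Multiset (ZMod m) := ((L.map fun n : ℕ => (n : ZMod m) : List _) : Multiset (ZMod m))

/-- is the list a Hodge character? -/
def hodgeL (m : ℕ) (L : List ℕ) : Bool :=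
  (L.all fun a => decide (0 < a) && decide (a < m)) && ((L.length % 2 == 0) && ((L.sum % m == 0) &&
    (List.range m).all fun t => (Nat.gcd t m != 1) ||
      (2 * (L.map fun a => t * a % m).sum == m * L.length)))

lemma ne_zero_of_lt {x : ℕ} (h0 : 0 < x) (h1 : x < m) : (x : ZMod m) ≠ 0 := by
  intro h
  rw [ZMod.natCast_eq_zero_iff] at h
  exact absurd (Nat.le_of_dvd h0 h) (by omega)

lemma ms_sum (L : List ℕ) (h : L.sum % m = 0) : (ms m L).sum = 0 := by
  unfold ms
  rw [Multiset.sum_coe]
  have h1 : ((L.sum : ℕ) : ZMod m) = 0 := by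
    rw [ZMod.natCast_eq_zero_iff]; exact Nat.dvd_of_mod_eq_zero h
  rw [← h1]
  clear h h1
  induction L with
  | nil => simp
  | cons a L ih => rw [List.map_cons, List.sum_cons, List.sum_cons, Nat.cast_add, ih]

lemma ms_zero (L : List ℕ) (h : ∀ a ∈ L, 0 < a ∧ a < m) : (0 : ZMod m) ∉ ms m L := by
  unfold ms
  rw [Multiset.mem_coe, List.mem_map]
  rintro ⟨a, ha, h0⟩
  exact ne_zero_of_lt (h a ha).1 (h a ha).2 h0

lemma hodgeL_sound {L : List ℕ} (h : hodgeL m L = true) : IsHodge m (ms m L) := by
  simp only [hodgeL, Bool.and_eq_true, decide_eq_true_eq, beq_iff_eq, List.all_eq_true,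
    List.mem_range, Bool.or_eq_true, bne_iff_ne, ne_eq] at h
  obtain ⟨hpos, heven, hsum, hall⟩ := h
  refine ⟨ms_zero L hpos, ?_, ms_sum L hsum, ?_⟩
  · unfold ms
    rw [Multiset.coe_card, List.length_map]
    exact Nat.even_iff.mpr heven
  · intro t
    have hcop : Nat.gcd (t : ZMod m).val m = 1 := ZMod.val_coe_unit_coprime t
    rcases hall (t : ZMod m).val (ZMod.val_lt _) with h1 | h1
    · exact absurd hcop h1
    · unfold ms
      rw [Multiset.map_coe, Multiset.sum_coe, Multiset.coe_card, List.length_map, List.map_map,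
        ← h1]
      congr 3
      funext x
      simp only [Function.comp]
      rw [ZMod.val_mul, ZMod.val_natCast, Nat.mul_mod_mod]

/-- A certificate for an empty Fine interior. -/
lemma fine_sound (b : Fin 5 → ℕ) (V : List (ℕ × (Fin 5 → ℕ))) (D : ℕ)
    (h1 : ∀ w ∈ V, w.2 ≠ 0 ∧ (∃ i, w.2 i = 0) ∧ (∑ i, w.2 i * b i) % m = 0)
    (h2 : ∀ i, (V.map fun w => w.1 * w.2 i).sum = D) (h3 : D < (V.map Prod.fst).sum) :
    EmptyFineInterior m (fun i => (b i : ZMod m)) := by
  intro u hu
  by_contra hcon
  push Not at hcon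
  have key : ∀ V : List (ℕ × (Fin 5 → ℕ)),
      (∀ w ∈ V, w.2 ≠ 0 ∧ (∃ i, w.2 i = 0) ∧ (∑ i, w.2 i * b i) % m = 0) →
      ((V.map Prod.fst).sum : ℝ) ≤ ∑ i, u i * ((V.map fun w => w.1 * w.2 i).sum : ℕ) := by
    intro V
    induction V with
    | nil => intro _; simp
    | cons w V ih =>
      intro h
      have h4 := ih (fun w' hw' => h w' (List.mem_cons_of_mem _ hw'))
      obtain ⟨ha, hb, hc⟩ := h w List.mem_cons_self
      have h5 := hcon w.2 ha hb (by
        have : ((∑ i, w.2 i * b i : ℕ) : ZMod m) = 0 := by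
          rw [ZMod.natCast_eq_zero_iff]; exact Nat.dvd_of_mod_eq_zero hc
        push_cast at this
        exact this)
      have h6 : ∑ i, u i * (((w :: V).map fun w => w.1 * w.2 i).sum : ℕ) =
          (w.1 : ℝ) * ∑ i, u i * (w.2 i : ℝ) + ∑ i, u i * ((V.map fun w => w.1 * w.2 i).sum : ℕ) := by
        rw [mul_sum, ← sum_add_distrib]
        refine sum_congr rfl fun i _ => ?_
        rw [List.map_cons, List.sum_cons]
        push_cast; ring
      rw [h6, List.map_cons, List.sum_cons]
      push_cast
      push_cast at h4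
      have h7 : (0 : ℝ) ≤ (w.1 : ℝ) := Nat.cast_nonneg _
      nlinarith
  have h4 := key V h1
  have h5 : ∑ i, u i * ((V.map fun w => w.1 * w.2 i).sum : ℕ) = (D : ℝ) := by
    rw [← one_mul (D : ℝ), ← hu, sum_mul]
    exact sum_congr rfl fun i _ => by rw [h2 i]
  rw [h5] at h4
  exact absurd (by exact_mod_cast h4 : (V.map Prod.fst).sum ≤ D) (by omega)

/-- the data of a five-entry character with the certificate for the Fine interior -/
structure Five where
  b : Fin 5 → ℕ
  V : List (ℕ × (Fin 5 → ℕ))
  D : ℕ

/-- the list of a five-entry character -/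
def Five.list (f : Five) : List ℕ := [f.b 0, f.b 1, f.b 2, f.b 3, f.b 4]

/-- check of a five-entry character -/
def fiveB (m : ℕ) (f : Five) : Bool :=
  (f.V.all fun w => (([w.2 0, w.2 1, w.2 2, w.2 3, w.2 4].any fun x => x != 0) &&
    ([w.2 0, w.2 1, w.2 2, w.2 3, w.2 4].any fun x => x == 0)) &&
    ((w.2 0 * f.b 0 + w.2 1 * f.b 1 + w.2 2 * f.b 2 + w.2 3 * f.b 3 + w.2 4 * f.b 4) % m == 0)) &&
  (((List.finRange 5).all fun i => ((f.V.map fun w => w.1 * w.2 i).sum == f.D)) &&
    decide (f.D < (f.V.map Prod.fst).sum))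

lemma fiveB_sound {f : Five} (h : fiveB m f = true) (h0 : ∀ a ∈ f.list, 0 < a ∧ a < m)
    (hs : f.list.sum % m = 0) : CurveCharacter m (ms m f.list) := by
  simp only [fiveB, Bool.and_eq_true, List.all_eq_true, List.any_eq_true, decide_eq_true_eq,
    beq_iff_eq, bne_iff_ne, ne_eq] at h
  obtain ⟨h1, h2, h3⟩ := h
  refine ⟨ms_zero _ h0, ms_sum _ hs, Or.inr ⟨fun i => (f.b i : ZMod m), ?_, ?_⟩⟩
  · unfold ms Five.list
    simp [Fin.univ_val_map, List.ofFn_succ]
  · apply fine_sound f.b f.V f.D
    · intro w hw
      obtain ⟨⟨⟨x, hx, hx0⟩, y, hy, hy0⟩, hs⟩ := h1 w hw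
      refine ⟨?_, ?_, ?_⟩
      · intro h
        rw [h] at hx
        simp at hx
        exact hx0 hx
      · simp only [List.mem_cons, List.not_mem_nil, or_false] at hy
        rcases hy with h | h | h | h | h
        · exact ⟨0, by rw [← h]; exact hy0⟩
        · exact ⟨1, by rw [← h]; exact hy0⟩
        · exact ⟨2, by rw [← h]; exact hy0⟩
        · exact ⟨3, by rw [← h]; exact hy0⟩
        · exact ⟨4, by rw [← h]; exact hy0⟩
      · simp only [Fin.sum_univ_five]
        exact hs
    · intro i
      exact h2 i (List.mem_finRange i)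
    · exact h3

lemma three_sound {a b c : ℕ} (h0 : ∀ x ∈ [a, b, c], 0 < x ∧ x < m)
    (hs : [a, b, c].sum % m = 0) : CurveCharacter m (ms m [a, b, c]) :=
  ⟨ms_zero _ h0, ms_sum _ hs, Or.inl (by simp [ms])⟩

lemma product_sound {L L₁ L₂ : List ℕ} (hL : L = L₁ ++ L₂) (h : hodgeL m L = true)
    (h1 : CurveCharacter m (ms m L₁)) (h2 : CurveCharacter m (ms m L₂)) :
    CurveProduct m (ms m L) := by
  refine ⟨hodgeL_sound h, _, _, h1, h2, ?_⟩
  rw [hL]
  unfold ms
  rw [List.map_append, Multiset.coe_add]

/-- The steps of the elimination: `surf` a Hodge character with four entries, `dist` a distribution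
relation, `curve` a multiple of the given curve product; the first or the last number is the new
residue. -/
inductive Stp where
  | surf (x b c d : ℕ)
  | dist (p a x : ℕ)
  | curve (t x : ℕ)

/-- the relation of a step, and the new residue -/
def Stp.rel (m : ℕ) (e : List ℕ) : Stp → ℕ × List ℕ
  | .surf x b c d => (x, if hodge4 m x b c d then [x, b, c, d] else [])
  | .dist p a x => (x, if decide (p.Prime) && (p * (m / p) == m) then
      ((m - p * a % m) % m) :: (List.range p).map (fun i => (a + i * (m / p)) % m) else [])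
  | .curve t x => (x, if Nat.gcd t m == 1 then e.map fun a => t * a % m else [])

/-- removal of pairs -/
def redL (m : ℕ) : List ℕ → List ℕ
  | [] => []
  | y :: L => if (redL m L).contains (m - y) then (redL m L).erase (m - y) else y :: redL m L

/-- one step of the elimination: the new residue `x` is in the relation `L`, the others are known -/
def stepL (m : ℕ) (K : List ℕ) (x : ℕ) (L : List ℕ) : List ℕ :=
  if L.contains x && (L.erase x).all (okB m K) then x :: K else K

/-- one step of the elimination -/
def stepC (m : ℕ) (e : List ℕ) (K : List ℕ) (q : Stp) : List ℕ :=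
  stepL m K (q.rel m e).1 (redL m (q.rel m e).2)

lemma redL_le {L : List ℕ} (h : ∀ y ∈ L, y ≤ m) : ∀ y ∈ redL m L, y ≤ m := by
  induction L with
  | nil => simp [redL]
  | cons a L ih =>
    intro y hy
    have ih' := ih fun y hy => h y (List.mem_cons_of_mem _ hy)
    unfold redL at hy
    split_ifs at hy with h1
    · exact ih' y (List.mem_of_mem_erase hy)
    · rcases List.mem_cons.mp hy with rfl | hy
      · exact h _ List.mem_cons_self
      · exact ih' y hy

lemma redL_sum {Q : Type*} [AddCommGroup Q] {c : ZMod m → Q} (hc : OddDist c) {L : List ℕ}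
    (h : ∀ y ∈ L, y ≤ m) : ((redL m L).map fun n : ℕ => c (n : ZMod m)).sum =
      (L.map fun n : ℕ => c (n : ZMod m)).sum := by
  induction L with
  | nil => simp [redL]
  | cons a L ih =>
    have ih' := ih fun y hy => h y (List.mem_cons_of_mem _ hy)
    unfold redL
    split_ifs with h1
    · rw [List.contains_iff_mem] at h1
      have h3 := (List.perm_cons_erase h1).map (fun n : ℕ => c (n : ZMod m))
      have h4 := h3.sum_eq
      rw [ih', List.map_cons, List.sum_cons] at h4
      have h2 : ((m - a : ℕ) : ZMod m) = - (a : ZMod m) := by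
        rw [Nat.cast_sub (h a List.mem_cons_self)]; simp
      rw [h2, hc.neg] at h4
      rw [List.map_cons, List.sum_cons, h4]
      abel
    · rw [List.map_cons, List.sum_cons, List.map_cons, List.sum_cons, ih']

/-- the complete check -/
def checkC (m : ℕ) (e : List ℕ) (B : List ℕ) (steps : List Stp) : Bool :=
  (List.range m).all (okB m (steps.foldl (stepC m e) B))

lemma rel_sound {P : Multiset (ZMod m) → Prop} (hP4 : ∀ s, SurfaceCharacter m s → P s)
    (hPu : ∀ s (t : (ZMod m)ˣ), P s → P (s.map fun a => (t : ZMod m) * a))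
    {e : List ℕ} (he : e = [] ∨ P (ms m e)) {Q : Type*} [AddCommGroup Q] {c : ZMod m → Q}
    (hc : OddDist c) (hk : Kil P c) (q : Stp) :
    (((q.rel m e).2.map fun n : ℕ => c (n : ZMod m)).sum = 0) ∧ ∀ y ∈ (q.rel m e).2, y ≤ m := by
  cases q with
  | surf x b c' d =>
    simp only [Stp.rel]
    split_ifs with hh
    · have h1 := hk _ (hP4 _ ⟨hodge4_sound hh, by simp⟩)
      simp only [Multiset.insert_eq_cons, Multiset.map_cons, Multiset.map_singleton,
        Multiset.sum_cons, Multiset.sum_singleton] at h1
      refine ⟨by simpa [add_assoc] using h1, ?_⟩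
      simp only [hodge4, Bool.and_eq_true, decide_eq_true_eq] at hh
      obtain ⟨⟨_, ha⟩, ⟨_, hb⟩, ⟨_, hc'⟩, ⟨_, hd⟩, _⟩ := hh
      intro y hy
      simp only [List.mem_cons, List.not_mem_nil, or_false] at hy
      omega
    · simp
  | dist p a x =>
    simp only [Stp.rel]
    split_ifs with hh
    · simp only [Bool.and_eq_true, decide_eq_true_eq, beq_iff_eq] at hh
      obtain ⟨hp, hpm⟩ := hh
      constructor
      · have h1 := hc.dist p (m / p) hp hpm (a : ZMod m)
        rw [List.map_cons, List.sum_cons, List.map_map]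
        have h2 : (((m - p * a % m) % m : ℕ) : ZMod m) = -((p : ZMod m) * (a : ZMod m)) := by
          rw [ZMod.natCast_mod, Nat.cast_sub (Nat.mod_lt _ (NeZero.pos m)).le, ZMod.natCast_mod]
          push_cast
          simp
        rw [h2, hc.neg, ← h1]
        have h3 : ((List.range p).map ((fun n : ℕ => c (n : ZMod m)) ∘
            fun i => (a + i * (m / p)) % m)).sum =
            ∑ i ∈ range p, c ((a : ZMod m) + (i : ZMod m) * ((m / p : ℕ) : ZMod m)) := by
          rw [Finset.sum_eq_multiset_sum]
          change _ = ((Multiset.range p).map _).sum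
          rw [← Multiset.coe_range, Multiset.map_coe, Multiset.sum_coe]
          congr 2
          funext i
          simp only [Function.comp, ZMod.natCast_mod]
          push_cast
          rfl
        rw [h3]
        exact neg_add_cancel _
      · intro y hy
        rcases List.mem_cons.mp hy with rfl | hy
        · exact (Nat.mod_lt _ (NeZero.pos m)).le
        · obtain ⟨i, _, rfl⟩ := List.mem_map.mp hy
          exact (Nat.mod_lt _ (NeZero.pos m)).le
    · simp
  | curve t x =>
    simp only [Stp.rel]
    split_ifs with hh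
    · simp only [beq_iff_eq] at hh
      constructor
      · rcases he with rfl | he
        · simp
        · have h1 := hk _ (hPu _ (ZMod.unitOfCoprime t hh) he)
          unfold ms at h1
          rw [Multiset.map_coe, Multiset.map_coe, Multiset.sum_coe, List.map_map, List.map_map] at h1
          rw [List.map_map, ← h1]
          congr 2
          funext y
          simp only [Function.comp, ZMod.coe_unitOfCoprime, ZMod.natCast_mod]
          push_cast
          rfl
      · intro y hy
        obtain ⟨i, _, rfl⟩ := List.mem_map.mp hy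
        exact (Nat.mod_lt _ (NeZero.pos m)).le
    · simp

lemma stepC_sound {P : Multiset (ZMod m) → Prop} (hP4 : ∀ s, SurfaceCharacter m s → P s)
    (hPu : ∀ s (t : (ZMod m)ˣ), P s → P (s.map fun a => (t : ZMod m) * a))
    {e : List ℕ} (he : e = [] ∨ P (ms m e)) {Q : Type*} [AddCommGroup Q] {c : ZMod m → Q}
    (hc : OddDist c) (hk : Kil P c) {S : AddSubgroup Q} {K : List ℕ}
    (hK : ∀ k ∈ K, c (k : ZMod m) ∈ S) (q : Stp) : ∀ k ∈ stepC m e K q, c (k : ZMod m) ∈ S := by
  intro k hk'
  unfold stepC stepL at hk'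
  split_ifs at hk' with h
  · rcases List.mem_cons.mp hk' with rfl | hk'
    · simp only [Bool.and_eq_true, List.contains_iff_mem, List.all_eq_true] at h
      obtain ⟨hx, hall⟩ := h
      obtain ⟨h1, h2⟩ := rel_sound hP4 hPu he hc hk q
      rw [← redL_sum hc h2] at h1
      replace h2 := redL_le h2
      have h3 := (List.perm_cons_erase hx).map (fun n : ℕ => c (n : ZMod m))
      rw [h3.sum_eq, List.map_cons, List.sum_cons] at h1
      rw [eq_neg_of_add_eq_zero_left h1]
      apply S.neg_mem
      apply S.list_sum_mem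
      intro z hz
      obtain ⟨y, hy, rfl⟩ := List.mem_map.mp hz
      exact okB_sound hc hK (h2 y (List.mem_of_mem_erase hy)) (hall y hy)
    · exact hK k hk'
  · exact hK k hk'

theorem full_of_checkC (hm3 : 3 ≤ m) (e : List ℕ)
    (he : e = [] ∨ CurveProduct m (ms m e)) (B : List ℕ) (steps : List Stp)
    (hlen : 2 * B.length ≤ Nat.totient m) (h : checkC m e B steps = true) :
    FullP m (SurfaceOrCurveProduct m) := by
  classical
  have hP4 : ∀ s, SurfaceCharacter m s → SurfaceOrCurveProduct m s := fun s hs => Or.inl hs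
  have hPu : ∀ s (t : (ZMod m)ˣ), SurfaceOrCurveProduct m s →
      SurfaceOrCurveProduct m (s.map fun a => (t : ZMod m) * a) := by
    rintro s t (hs | hs)
    · exact Or.inl ⟨IsHodge.mul' hs.1 t, by rw [Multiset.card_map]; exact hs.2⟩
    · exact Or.inr (hs.mul t)
  have he' : e = [] ∨ SurfaceOrCurveProduct m (ms m e) := he.imp id Or.inr
  apply fullP_of_gen (fun s hs => hs.elim (fun h => h.1) (fun h => h.1)) hm3
    ((B.map (fun n : ℕ => (n : ZMod m))).toFinset)
  · have h1 := List.toFinset_card_le (B.map (fun n : ℕ => (n : ZMod m)))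
    rw [List.length_map] at h1
    omega
  · intro Q _ c hc hk S hS a
    have hB : ∀ k ∈ B, c (k : ZMod m) ∈ S := by
      intro k hk
      apply hS
      rw [List.mem_toFinset]
      exact List.mem_map.mpr ⟨k, hk, rfl⟩
    have hsteps : ∀ (st : List Stp) (K : List ℕ), (∀ k ∈ K, c (k : ZMod m) ∈ S) →
        ∀ k ∈ st.foldl (stepC m e) K, c (k : ZMod m) ∈ S := by
      intro st
      induction st with
      | nil => intro K hK; exact hK
      | cons q st ih =>
        intro K hK
        rw [List.foldl_cons]
        exact ih _ (stepC_sound hP4 hPu he' hc hk hK q)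
    unfold checkC at h
    rw [List.all_eq_true] at h
    have h1 := h a.val (List.mem_range.mpr (ZMod.val_lt a))
    have h2 := okB_sound hc (hsteps steps B hB) (ZMod.val_lt a).le h1
    rwa [ZMod.natCast_zmod_val] at h2

end Pool.Agent.Y2.Cv
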