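import Pool.Agent.H916R2.Full

/-!
# Uniruled threefolds and the characters of Fermat varieties

For a tuple `b` of five nonzero residues modulo `m` with sum zero, the quotient `W_b` of the Fermat
threefold of degree `m` by the kernel of `b` is birational to the hypersurface of the torus given by
the sum of five monomials, whose Newton polytope is a simplex. With respect to the lattice of
monomials on this torus the Fine interior of the simplex is the set of the points `u`, with sum of the
barycentric coordinates `1`, such that `∑ u i * v i ≥ 1` for all `v` in the dual lattice, normalised by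
`min v i = 0`, `v ≠ 0`, i.e. for all nonzero tuples `v` of natural numbers with `min v i = 0` and
`∑ v i * b i = 0` modulo `m`. If it is empty, then the threefold has Kodaira dimension `-∞`
(Ishii, Batyrev) and is uniruled (Miyaoka).
-/

namespace Pool.Agent.Y2.Cv

open Pool.Agent.H916R2 Finset

/-- The Fine interior of the Newton simplex of the toric threefold `W_b` is empty. -/
def EmptyFineInterior (m : ℕ) (b : Fin 5 → ZMod m) : Prop :=
  ∀ u : Fin 5 → ℝ, ∑ i, u i = 1 → ∃ v : Fin 5 → ℕ, v ≠ 0 ∧ (∃ i, v i = 0) ∧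
    ∑ i, (v i : ZMod m) * b i = 0 ∧ ∑ i, u i * (v i : ℝ) < 1

/-- The characters of Fermat curves, and those of the Fermat threefold for which the Fine interior of
the Newton simplex is empty. -/
def CurveCharacter (m : ℕ) (s : Multiset (ZMod m)) : Prop :=
  (0 : ZMod m) ∉ s ∧ s.sum = 0 ∧ (Multiset.card s = 3 ∨
    ∃ b : Fin 5 → ZMod m, s = Finset.univ.val.map b ∧ EmptyFineInterior m b)

/-- The Hodge characters which are the union of two curve characters. -/
def CurveProduct (m : ℕ) (s : Multiset (ZMod m)) : Prop :=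
  IsHodge m s ∧ ∃ s₁ s₂ : Multiset (ZMod m), CurveCharacter m s₁ ∧ CurveCharacter m s₂ ∧
    s = s₁ + s₂

/-- The Hodge characters with four entries, and the curve products. -/
def SurfaceOrCurveProduct (m : ℕ) (s : Multiset (ZMod m)) : Prop :=
  SurfaceCharacter m s ∨ CurveProduct m s

variable {m : ℕ}

lemma EmptyFineInterior.mul {b : Fin 5 → ZMod m} (h : EmptyFineInterior m b) (t : ZMod m) :
    EmptyFineInterior m (fun i => t * b i) := by
  intro u hu
  obtain ⟨v, hv, hv0, hs, hlt⟩ := h u hu
  refine ⟨v, hv, hv0, ?_, hlt⟩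
  have : ∑ i, (v i : ZMod m) * (t * b i) = t * ∑ i, (v i : ZMod m) * b i := by
    rw [mul_sum]
    exact sum_congr rfl fun i _ => by ring
  rw [this, hs, mul_zero]

lemma iota_sum {k m0 : ℕ} [NeZero m0] (h : k * m0 = m) {ι : Type*} (s : Finset ι)
    (f : ι → ZMod m0) : (iota k (∑ i ∈ s, f i) : ZMod m) = ∑ i ∈ s, iota k (f i) := by
  classical
  induction s using Finset.induction_on with
  | empty => simp [iota_zero]
  | insert a s ha ih => rw [sum_insert ha, sum_insert ha, iota_add h, ih]

lemma iota_msum {k m0 : ℕ} [NeZero m0] (h : k * m0 = m) (s : Multiset (ZMod m0)) :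
    (iota k s.sum : ZMod m) = (s.map (iota k)).sum := by
  induction s using Multiset.induction_on with
  | empty => simp [iota_zero]
  | cons a s ih => rw [Multiset.sum_cons, Multiset.map_cons, Multiset.sum_cons, iota_add h, ih]

lemma EmptyFineInterior.lift {k m0 : ℕ} [NeZero m0] (h : k * m0 = m) {b : Fin 5 → ZMod m0}
    (hb : EmptyFineInterior m0 b) : EmptyFineInterior m (fun i => (iota k (b i) : ZMod m)) := by
  intro u hu
  obtain ⟨v, hv, hv0, hs, hlt⟩ := hb u hu
  refine ⟨v, hv, hv0, ?_, hlt⟩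
  have : ∑ i, (v i : ZMod m) * (iota k (b i) : ZMod m) =
      (iota k (∑ i, (v i : ZMod m0) * b i) : ZMod m) := by
    rw [iota_sum h]
    exact sum_congr rfl fun i _ => (iota_natMul h _ _).symm
  rw [this, hs, iota_zero]

lemma CurveCharacter.mul {s : Multiset (ZMod m)} (hs : CurveCharacter m s) (t : ZMod m)
    (ht : IsUnit t) : CurveCharacter m (s.map (fun a => t * a)) := by
  obtain ⟨h0, hsum, h⟩ := hs
  refine ⟨?_, ?_, ?_⟩
  · rw [Multiset.mem_map]
    rintro ⟨a, ha, hta⟩
    rw [ht.mul_right_eq_zero] at hta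
    exact h0 (hta ▸ ha)
  · rw [Multiset.sum_map_mul_left, Multiset.map_id', hsum, mul_zero]
  · rcases h with h | ⟨b, hb, hF⟩
    · left; rw [Multiset.card_map]; exact h
    · right
      refine ⟨fun i => t * b i, ?_, hF.mul t⟩
      rw [hb, Multiset.map_map]; rfl

lemma CurveCharacter.lift [NeZero m] {k m0 : ℕ} [NeZero m0] (h : k * m0 = m)
    {s : Multiset (ZMod m0)} (hs : CurveCharacter m0 s) :
    CurveCharacter m (s.map (iota k : ZMod m0 → ZMod m)) := by
  obtain ⟨h0, hsum, hh⟩ := hs
  refine ⟨?_, ?_, ?_⟩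
  · rw [Multiset.mem_map]
    rintro ⟨a, ha, hta⟩
    exact h0 ((iota_eq_zero h hta) ▸ ha)
  · rw [← iota_msum h, hsum, iota_zero]
  · rcases hh with hh | ⟨b, hb, hF⟩
    · left; rw [Multiset.card_map]; exact hh
    · right
      refine ⟨fun i => (iota k (b i) : ZMod m), ?_, hF.lift h⟩
      rw [hb, Multiset.map_map]; rfl

lemma IsHodge.mul' {s : Multiset (ZMod m)} (hs : IsHodge m s) (u : (ZMod m)ˣ) :
    IsHodge m (s.map (fun a => (u : ZMod m) * a)) := by
  obtain ⟨h0, he, hsum, hH⟩ := hs
  refine ⟨?_, ?_, ?_, ?_⟩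
  · rw [Multiset.mem_map]
    rintro ⟨a, ha, hta⟩
    rw [u.isUnit.mul_right_eq_zero] at hta
    exact h0 (hta ▸ ha)
  · rw [Multiset.card_map]; exact he
  · rw [Multiset.sum_map_mul_left, Multiset.map_id', hsum, mul_zero]
  · intro t
    have := hH (t * u)
    rw [Multiset.map_map, Multiset.card_map]
    rw [← this]
    congr 3
    funext a
    simp only [Function.comp]
    congr 1
    push_cast; ring

lemma CurveProduct.mul {s : Multiset (ZMod m)} (hs : CurveProduct m s) (u : (ZMod m)ˣ) :
    CurveProduct m (s.map (fun a => (u : ZMod m) * a)) := by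
  obtain ⟨hH, s₁, s₂, h1, h2, rfl⟩ := hs
  exact ⟨IsHodge.mul' hH u, _, _, h1.mul _ u.isUnit, h2.mul _ u.isUnit, Multiset.map_add _ _ _⟩

lemma CurveProduct.lift [NeZero m] {k m0 : ℕ} [NeZero m0] (h : k * m0 = m)
    {s : Multiset (ZMod m0)} (hs : CurveProduct m0 s) :
    CurveProduct m (s.map (iota k : ZMod m0 → ZMod m)) := by
  obtain ⟨hH, s₁, s₂, h1, h2, rfl⟩ := hs
  exact ⟨hH.iota h, _, _, h1.lift h, h2.lift h, Multiset.map_add _ _ _⟩

lemma base_good : ∀ s, SurfaceOrCurveProduct m s → (0 : ZMod m) ∉ s ∧ Even (Multiset.card s) := by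
  rintro s (h | h)
  · exact ⟨h.1.1, h.1.2.1⟩
  · exact ⟨h.1.1, h.1.2.1⟩

lemma base_neg [NeZero m] : ∀ s, SurfaceOrCurveProduct m s →
    SurfaceOrCurveProduct m (s.map Neg.neg) := by
  rintro s (⟨h1, h2⟩ | h)
  · exact Or.inl ⟨h1.neg, by rw [Multiset.card_map]; exact h2⟩
  · right
    have := h.mul (-1)
    have e : (fun a : ZMod m => ((-1 : (ZMod m)ˣ) : ZMod m) * a) = Neg.neg := by
      funext a; simp
    rwa [e] at this

end Pool.Agent.Y2.Cv
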