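import Pool.Agent.Y2.Cv.Certs
import Pool.Agent.H916R2.Families

/-!
The new degrees.
-/

namespace Pool.Agent.Y2.Cv

open Pool.Agent.H916R2

/-- All prime factors of `m` are among `2, 3, 5`, or `2, 3, 7`, or `2, 5, 7`, or `2, 3, 11`, or
`2, 3, 13`; or `4` does not divide `m` and they are among `2, 3, 5, 7`, or `2, 3, 17`, or `2, 3, 19`;
or `m` is a prime power or twice a prime power. -/
def GoodDegree2 (m : ℕ) : Prop :=
  (∀ p : ℕ, p.Prime → p ∣ m → p = 2 ∨ p = 3 ∨ p = 5) ∨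
  (∀ p : ℕ, p.Prime → p ∣ m → p = 2 ∨ p = 3 ∨ p = 7) ∨
  (∀ p : ℕ, p.Prime → p ∣ m → p = 2 ∨ p = 5 ∨ p = 7) ∨
  (∀ p : ℕ, p.Prime → p ∣ m → p = 2 ∨ p = 3 ∨ p = 11) ∨
  (∀ p : ℕ, p.Prime → p ∣ m → p = 2 ∨ p = 3 ∨ p = 13) ∨
  (¬ 4 ∣ m ∧ ((∀ p : ℕ, p.Prime → p ∣ m → p = 2 ∨ p = 3 ∨ p = 5 ∨ p = 7) ∨
    (∀ p : ℕ, p.Prime → p ∣ m → p = 2 ∨ p = 3 ∨ p = 17) ∨
    (∀ p : ℕ, p.Prime → p ∣ m → p = 2 ∨ p = 3 ∨ p = 19))) ∨
  (∃ p k : ℕ, p.Prime ∧ (m = p ^ k ∨ m = 2 * p ^ k))

lemma keyC {m m0 : ℕ} [NeZero m0] (hm : 0 < m) (hfull : FullP m0 (SurfaceOrCurveProduct m0))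
    (hdvd : m0 ∣ m) (hprime : ∀ p : ℕ, p.Prime → p ∣ m → p ∣ m0) (hfour : 4 ∣ m → 4 ∣ m0)
    (s : Multiset (ZMod m)) (hs : IsHodge m s) (hne : s ≠ 0) :
    Generated m (SurfaceOrCurveProduct m) s := by
  have : NeZero m := ⟨hm.ne'⟩
  have hk : (m / m0) * m0 = m := Nat.div_mul_cancel hdvd
  have hred : Red m m0 (m / m0) := red_exists _ m m0 (m / m0) rfl hk hprime hfour
  exact generated_of_fullP hk hred hfull hs hne

lemma generated_mono {m : ℕ} {P Q : Multiset (ZMod m) → Prop} (h : ∀ s, P s → Q s)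
    {s : Multiset (ZMod m)} (hs : Generated m P s) : Generated m Q s := by
  induction hs with
  | ofBase s hs => exact .ofBase s (h s hs)
  | pair a ha => exact .pair a ha
  | standard p hp hp2 hpm a ha => exact .standard p hp hp2 hpm a ha
  | standardTwo hm a ha => exact .standardTwo hm a ha
  | join s t _ _ ihs iht => exact .join s t ihs iht
  | cancel a s _ ih => exact .cancel a s ih

lemma old {m : ℕ} (hm : 0 < m) (h : GoodDegree m) (s : Multiset (ZMod m)) (hs : IsHodge m s)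
    (hne : s ≠ 0) : Generated m (SurfaceOrCurveProduct m) s :=
  generated_mono (fun _ h => Or.inl h) (Families.main m hm h s hs hne)

lemma d3 {a b c m : ℕ} (hab : Nat.Coprime a b) (habc : Nat.Coprime (a * b) c) (ha : a ∣ m)
    (hb : b ∣ m) (hc : c ∣ m) : a * b * c ∣ m :=
  habc.mul_dvd_of_dvd_of_dvd (hab.mul_dvd_of_dvd_of_dvd ha hb) hc

lemma d2 {a b m : ℕ} (hab : Nat.Coprime a b) (ha : a ∣ m) (hb : b ∣ m) : a * b ∣ m :=
  hab.mul_dvd_of_dvd_of_dvd ha hb

lemma surf {m : ℕ} : ∀ s, SurfaceCharacter m s → SurfaceOrCurveProduct m s := fun _ h => Or.inl h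

lemma full2p {p : ℕ} [NeZero (2 * p)] (hp : p.Prime) (hp3 : 3 ≤ p) :
    FullP (2 * p) (SurfaceOrCurveProduct (2 * p)) := .of_full surf (full_two_mul_prime hp hp3)

lemma case_q {m q : ℕ} (hm : 0 < m) (heven : 2 ∣ m)
    (hq : q = 11 ∨ q = 13 ∨ (¬ 4 ∣ m ∧ (q = 17 ∨ q = 19)))
    (h : ∀ p : ℕ, p.Prime → p ∣ m → p = 2 ∨ p = 3 ∨ p = q)
    (s : Multiset (ZMod m)) (hs : IsHodge m s) (hne : s ≠ 0) :
    Generated m (SurfaceOrCurveProduct m) s := by
  by_cases hqm : q ∣ m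
  swap
  · refine old hm (Or.inl ?_) s hs hne
    intro p hp hpm
    rcases h p hp hpm with h1 | h1 | h1
    · exact Or.inl h1
    · exact Or.inr (Or.inl h1)
    · exact absurd (h1 ▸ hpm) hqm
  have hprime : ∀ m0 : ℕ, 2 ∣ m0 → (3 ∣ m → 3 ∣ m0) → q ∣ m0 →
      ∀ p : ℕ, p.Prime → p ∣ m → p ∣ m0 := by
    intro m0 h2 h3 hq' p hp hpm
    rcases h p hp hpm with rfl | rfl | rfl
    · exact h2
    · exact h3 hpm
    · exact hq'
  rcases hq with rfl | rfl | ⟨h4, rfl | rfl⟩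
  · by_cases h3 : 3 ∣ m <;> by_cases h4 : 4 ∣ m
    · exact keyC hm full_132 (d3 (a := 4) (b := 3) (c := 11) (by norm_num) (by norm_num) h4 h3 hqm) (hprime _ (by norm_num) (fun _ => by norm_num)
        (by norm_num)) (fun _ => by norm_num) s hs hne
    · exact keyC hm (.of_full surf full_66) (d3 (a := 2) (b := 3) (c := 11) (by norm_num) (by norm_num) heven h3 hqm) (hprime _ (by norm_num)
        (fun _ => by norm_num) (by norm_num)) (fun h => absurd h h4) s hs hne
    · exact keyC hm full_44 (d2 (a := 4) (b := 11) (by norm_num) h4 hqm) (hprime _ (by norm_num) (fun h => absurd h h3)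
        (by norm_num)) (fun _ => by norm_num) s hs hne
    · exact keyC hm (full2p (p := 11) (by norm_num) (by norm_num)) (d2 (by norm_num) heven hqm)
        (hprime _ (by norm_num) (fun h => absurd h h3) (by norm_num)) (fun h => absurd h h4) s hs hne
  · by_cases h3 : 3 ∣ m <;> by_cases h4 : 4 ∣ m
    · exact keyC hm full_156 (d3 (a := 4) (b := 3) (c := 13) (by norm_num) (by norm_num) h4 h3 hqm) (hprime _ (by norm_num) (fun _ => by norm_num)
        (by norm_num)) (fun _ => by norm_num) s hs hne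
    · exact keyC hm (.of_full surf full_78) (d3 (a := 2) (b := 3) (c := 13) (by norm_num) (by norm_num) heven h3 hqm) (hprime _ (by norm_num)
        (fun _ => by norm_num) (by norm_num)) (fun h => absurd h h4) s hs hne
    · exact keyC hm full_52 (d2 (a := 4) (b := 13) (by norm_num) h4 hqm) (hprime _ (by norm_num) (fun h => absurd h h3)
        (by norm_num)) (fun _ => by norm_num) s hs hne
    · exact keyC hm (full2p (p := 13) (by norm_num) (by norm_num)) (d2 (by norm_num) heven hqm)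
        (hprime _ (by norm_num) (fun h => absurd h h3) (by norm_num)) (fun h => absurd h h4) s hs hne
  · by_cases h3 : 3 ∣ m
    · exact keyC hm full_102 (d3 (a := 2) (b := 3) (c := 17) (by norm_num) (by norm_num) heven h3 hqm) (hprime _ (by norm_num) (fun _ => by norm_num)
        (by norm_num)) (fun h => absurd h h4) s hs hne
    · exact keyC hm (full2p (p := 17) (by norm_num) (by norm_num)) (d2 (by norm_num) heven hqm)
        (hprime _ (by norm_num) (fun h => absurd h h3) (by norm_num)) (fun h => absurd h h4) s hs hne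
  · by_cases h3 : 3 ∣ m
    · exact keyC hm full_114 (d3 (a := 2) (b := 3) (c := 19) (by norm_num) (by norm_num) heven h3 hqm) (hprime _ (by norm_num) (fun _ => by norm_num)
        (by norm_num)) (fun h => absurd h h4) s hs hne
    · exact keyC hm (full2p (p := 19) (by norm_num) (by norm_num)) (d2 (by norm_num) heven hqm)
        (hprime _ (by norm_num) (fun h => absurd h h3) (by norm_num)) (fun h => absurd h h4) s hs hne

lemma case_57 {m : ℕ} (hm : 0 < m) (heven : 2 ∣ m)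
    (h : ∀ p : ℕ, p.Prime → p ∣ m → p = 2 ∨ p = 3 ∨ p = 5 ∨ p = 7) (h34 : ¬ 3 ∣ m ∨ ¬ 4 ∣ m)
    (s : Multiset (ZMod m)) (hs : IsHodge m s) (hne : s ≠ 0) :
    Generated m (SurfaceOrCurveProduct m) s := by
  by_cases h5 : 5 ∣ m
  swap
  · refine old hm (Or.inr (Or.inl ?_)) s hs hne
    intro p hp hpm
    rcases h p hp hpm with h1 | h1 | h1 | h1
    · exact Or.inl h1
    · exact Or.inr (Or.inl h1)
    · exact absurd (h1 ▸ hpm) h5
    · exact Or.inr (Or.inr h1)
  by_cases h7 : 7 ∣ m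
  swap
  · refine old hm (Or.inl ?_) s hs hne
    intro p hp hpm
    rcases h p hp hpm with h1 | h1 | h1 | h1
    · exact Or.inl h1
    · exact Or.inr (Or.inl h1)
    · exact Or.inr (Or.inr h1)
    · exact absurd (h1 ▸ hpm) h7
  have hprime : ∀ m0 : ℕ, 2 ∣ m0 → (3 ∣ m → 3 ∣ m0) → 5 ∣ m0 → 7 ∣ m0 →
      ∀ p : ℕ, p.Prime → p ∣ m → p ∣ m0 := by
    intro m0 h2 h3 h5' h7' p hp hpm
    rcases h p hp hpm with rfl | rfl | rfl | rfl
    · exact h2
    · exact h3 hpm
    · exact h5'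
    · exact h7'
  by_cases h3 : 3 ∣ m
  · have h4 : ¬ 4 ∣ m := h34.resolve_left (not_not.mpr h3)
    exact keyC hm full_210 (d2 (a := 6) (b := 35) (by norm_num) (d2 (a := 2) (b := 3) (by norm_num) heven h3) (d2 (a := 5) (b := 7) (by norm_num) h5 h7)) (hprime _ (by norm_num) (fun _ => by norm_num)
        (by norm_num) (by norm_num)) (fun h => absurd h h4) s hs hne
  · by_cases h4 : 4 ∣ m
    · exact keyC hm full_140 (d3 (a := 4) (b := 5) (c := 7) (by norm_num) (by norm_num) h4 h5 h7) (hprime _ (by norm_num) (fun h => absurd h h3)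
        (by norm_num) (by norm_num)) (fun _ => by norm_num) s hs hne
    · exact keyC hm full_70 (d3 (a := 2) (b := 5) (c := 7) (by norm_num) (by norm_num) heven h5 h7) (hprime _ (by norm_num) (fun h => absurd h h3)
        (by norm_num) (by norm_num)) (fun h => absurd h h4) s hs hne

/-- even degrees -/
theorem main2_even {m : ℕ} (hm : 0 < m) (heven : 2 ∣ m) (hdeg : GoodDegree2 m)
    (s : Multiset (ZMod m)) (hs : IsHodge m s) (hne : s ≠ 0) :
    Generated m (SurfaceOrCurveProduct m) s := by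
  rcases hdeg with h | h | h | h | h | ⟨h4, h | h | h⟩ | h
  · exact old hm (Or.inl h) s hs hne
  · exact old hm (Or.inr (Or.inl h)) s hs hne
  · refine case_57 hm heven (fun p hp hpm => ?_) (Or.inl fun h3 => ?_) s hs hne
    · rcases h p hp hpm with h1 | h1 | h1
      · exact Or.inl h1
      · exact Or.inr (Or.inr (Or.inl h1))
      · exact Or.inr (Or.inr (Or.inr h1))
    · have := h 3 Nat.prime_three h3
      omega
  · exact case_q hm heven (Or.inl rfl) h s hs hne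
  · exact case_q hm heven (Or.inr (Or.inl rfl)) h s hs hne
  · exact case_57 hm heven h (Or.inr h4) s hs hne
  · exact case_q hm heven (Or.inr (Or.inr ⟨h4, Or.inl rfl⟩)) h s hs hne
  · exact case_q hm heven (Or.inr (Or.inr ⟨h4, Or.inr rfl⟩)) h s hs hne
  · exact old hm (Or.inr (Or.inr (Or.inl h))) s hs hne

lemma GoodDegree2.two_mul {m : ℕ} (hodd : ¬ 2 ∣ m) (h : GoodDegree2 m) : GoodDegree2 (2 * m) := by
  have h4 : ¬ 4 ∣ 2 * m := fun h => hodd (Nat.dvd_of_mul_dvd_mul_left (by norm_num : 0 < 2) h)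
  have hp : ∀ {p : ℕ}, p.Prime → p ∣ 2 * m → p = 2 ∨ p ∣ m := by
    intro p hp hpm
    rcases hp.dvd_mul.mp hpm with h | h
    · exact Or.inl ((Nat.prime_dvd_prime_iff_eq hp Nat.prime_two).mp h)
    · exact Or.inr h
  rcases h with h | h | h | h | h | ⟨_, h | h | h⟩ | ⟨p, k, hpp, h⟩
  · exact Or.inl fun p hpp hpm => (hp hpp hpm).elim Or.inl (h p hpp)
  · exact Or.inr (Or.inl fun p hpp hpm => (hp hpp hpm).elim Or.inl (h p hpp))
  · exact Or.inr (Or.inr (Or.inl fun p hpp hpm => (hp hpp hpm).elim Or.inl (h p hpp)))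
  · exact Or.inr (Or.inr (Or.inr (Or.inl fun p hpp hpm => (hp hpp hpm).elim Or.inl (h p hpp))))
  · exact Or.inr (Or.inr (Or.inr (Or.inr (Or.inl fun p hpp hpm =>
      (hp hpp hpm).elim Or.inl (h p hpp)))))
  · exact Or.inr (Or.inr (Or.inr (Or.inr (Or.inr (Or.inl ⟨h4, Or.inl fun p hpp hpm =>
      (hp hpp hpm).elim Or.inl (h p hpp)⟩)))))
  · exact Or.inr (Or.inr (Or.inr (Or.inr (Or.inr (Or.inl ⟨h4, Or.inr (Or.inl fun p hpp hpm =>
      (hp hpp hpm).elim Or.inl (h p hpp))⟩)))))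
  · exact Or.inr (Or.inr (Or.inr (Or.inr (Or.inr (Or.inl ⟨h4, Or.inr (Or.inr fun p hpp hpm =>
      (hp hpp hpm).elim Or.inl (h p hpp))⟩)))))
  · rcases h with h | h
    · exact Or.inr (Or.inr (Or.inr (Or.inr (Or.inr (Or.inr ⟨p, k, hpp, Or.inr (by rw [h])⟩)))))
    · exact absurd (h ▸ dvd_mul_right 2 _) hodd

/-- odd degrees: the double degree -/
theorem main2_odd {m : ℕ} (hm : 0 < m) (hodd : ¬ 2 ∣ m) (hdeg : GoodDegree2 m)
    (s : Multiset (ZMod m)) (hs : IsHodge m s) (hne : s ≠ 0) :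
    Generated (2 * m) (SurfaceOrCurveProduct (2 * m))
      (s.map fun a => ((2 * a.val : ℕ) : ZMod (2 * m))) := by
  have : NeZero m := ⟨hm.ne'⟩
  have : NeZero (2 * m) := ⟨by omega⟩
  refine main2_even (by omega) (dvd_mul_right 2 m) (hdeg.two_mul hodd) _
    (IsHodge.iota (k := 2) rfl hs) ?_
  intro h
  exact hne (Multiset.map_eq_zero.mp h)

end Pool.Agent.Y2.Cv
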