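import Pool.Agent.Y2.Cv.Families
import Pool.Agent.Y2.Fin

/-!
Hodge characters with `N` entries come, up to standard characters, from the universal degree: version
with curve products.
-/

namespace Pool.Agent.Y2.Cv

open Finset Pool.Agent.H916R2 Pool.Agent.Y2

/-- `d` divides `m` and is even, `t` a generated character of degree `d`; then the lift is killed -/
lemma killed_of_level {m d : ℕ} [NeZero m] [NeZero d] {k : ℕ} (e2 : k * d = m)
    {t : Multiset (ZMod d)} (ht : Generated d (SurfaceOrCurveProduct d) t) :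
    (t.map fun b => cQ m (SurfaceOrCurveProduct m) (iota k b)).sum = 0 := by
  refine gen_sum_zero ((cQ_oddDist (m := m) (base := SurfaceOrCurveProduct m)).comp_iota e2) ?_ ht
  intro u hu
  have hu' : SurfaceOrCurveProduct m (u.map (iota k : ZMod d → ZMod m)) := by
    rcases hu with ⟨h1, h2⟩ | h1
    · exact Or.inl ⟨h1.iota e2, by rw [Multiset.card_map]; exact h2⟩
    · exact Or.inr (h1.lift e2)
  have h3 := cQ_sum_eq_zero (Generated.ofBase (m := m) (base := SurfaceOrCurveProduct m)
    (u.map (iota k)) hu')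
  rw [Multiset.map_map] at h3
  exact h3

theorem main_good2 {m : ℕ} (hm : 0 < m) (s : Multiset (ZMod m)) (hs : IsHodge m s)
    (hne : s ≠ 0) (heven : 2 ∣ Nat.gcd m (DD (Multiset.card s)))
    (hgood : GoodDegree2 (Nat.gcd m (DD (Multiset.card s)))) :
    Generated m (SurfaceOrCurveProduct m) s := by
  have hNm : NeZero m := ⟨hm.ne'⟩
  set N := Multiset.card s with hN
  set d := Nat.gcd m (DD N) with hd
  have hd0 : 0 < d := Nat.gcd_pos_of_pos_left _ hm
  have hNd : NeZero d := ⟨hd0.ne'⟩
  have e2 : m / d * d = m := Nat.div_mul_cancel (Nat.gcd_dvd_left _ _)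
  obtain ⟨t, ht, _, hsum⟩ := reduce hm s hs
  have h1 := hsum _ (cQ m (SurfaceOrCurveProduct m)) cQ_oddDist
  have h2 : (s.map (cQ m (SurfaceOrCurveProduct m))).sum = 0 := by
    rw [h1]
    by_cases h0 : t = 0
    · rw [h0]; simp
    · exact killed_of_level e2 (main2_even hd0 heven hgood t ht h0)
  rw [cQ_sum, QuotientAddGroup.eq_zero_iff] at h2
  exact generated_of_mem_LL base_good base_neg hs.1 hs.2.1 hne h2

lemma even_DD (N : ℕ) (hN : 0 < N) : 2 ∣ DD N := by
  unfold DD
  have h2 : 2 ∣ primorial (12 * N) := by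
    unfold primorial
    apply Finset.dvd_prod_of_mem
    simp only [Finset.mem_filter, Finset.mem_range]
    exact ⟨by omega, Nat.prime_two⟩
  exact dvd_pow h2 (by unfold EX; exact (Nat.mul_pos (by omega) (by omega)).ne')

theorem main_all2 {m : ℕ} (hm : 0 < m) (s : Multiset (ZMod m)) (hs : IsHodge m s)
    (hne : s ≠ 0) :
    Generated m (fun t => SurfaceCharacter m t ∨
      (Even (Nat.gcd m (DD (Multiset.card s))) ∧ GoodDegree2 (Nat.gcd m (DD (Multiset.card s))) ∧
        CurveProduct m t) ∨
      (¬ GoodDegree (Nat.gcd m (DD (Multiset.card s))) ∧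
        ¬ (Even (Nat.gcd m (DD (Multiset.card s))) ∧
          GoodDegree2 (Nat.gcd m (DD (Multiset.card s)))) ∧
        FromLevel m (Nat.gcd m (DD (Multiset.card s))) t ∧
        Multiset.card t = Multiset.card s)) s := by
  by_cases hg : GoodDegree (Nat.gcd m (DD (Multiset.card s)))
  · exact Y2.generated_mono (fun t ht => Or.inl ht) (main_surface hm s hs hne hg)
  by_cases hg2 : Even (Nat.gcd m (DD (Multiset.card s))) ∧
      GoodDegree2 (Nat.gcd m (DD (Multiset.card s)))
  · refine Y2.generated_mono (fun t ht => ?_) (main_good2 hm s hs hne hg2.1.two_dvd hg2.2)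
    rcases ht with ht | ht
    · exact Or.inl ht
    · exact Or.inr (Or.inl ⟨hg2.1, hg2.2, ht⟩)
  · exact Y2.generated_mono (fun t ht => Or.inr (Or.inr ⟨hg, hg2, ht⟩)) (main_base hm s hs hne)

end Pool.Agent.Y2.Cv
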