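import Pool.Agent.Y2.Cv.Defs

/-!
Levels at which all relations follow from the distribution relations and a family of Hodge characters.
-/

namespace Pool.Agent.Y2.Cv

open Pool.Agent.H916R2 Finset

set_option linter.unusedSectionVars false

variable {m : ℕ} [NeZero m]

/-- `c` kills the members of the family `P`. -/
def Kil (P : Multiset (ZMod m) → Prop) {Q : Type*} [AddCommGroup Q] (c : ZMod m → Q) : Prop :=
  ∀ s : Multiset (ZMod m), P s → (s.map c).sum = 0

/-- All relations follow from distribution relations and the members of `P`. -/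
def FullP (m : ℕ) [NeZero m] (P : Multiset (ZMod m) → Prop) : Prop :=
  ∀ (Q : Type) [AddCommGroup Q] (c : ZMod m → Q), OddDist c → Kil P c →
    ∀ x : ZMod m → ℤ, Rel x → ∑ a, x a • c a = 0

lemma FullP.of_full {P : Multiset (ZMod m) → Prop} (hP : ∀ s, SurfaceCharacter m s → P s)
    (h : Full m) : FullP m P := by
  intro Q _ c hc hk x hx
  exact h Q c hc (fun s hs h4 => hk s (hP s ⟨hs, h4⟩)) x hx

theorem fullP_of_gen {P : Multiset (ZMod m) → Prop} (hP : ∀ s, P s → IsHodge m s) (hm3 : 3 ≤ m)
    (B : Finset (ZMod m)) (hcard : 2 * B.card ≤ Nat.totient m)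
    (hgen : ∀ (Q : Type) [AddCommGroup Q] (c : ZMod m → Q), OddDist c → Kil P c →
      ∀ S : AddSubgroup Q, (∀ b ∈ B, c b ∈ S) → ∀ a, c a ∈ S) : FullP m P := by
  classical
  intro Q _ c hc hc4 x hx
  let c' : ZMod m → Q × ((ZMod m)ˣ → ℤ) := fun a => (c a, fun t => saw ((t : ZMod m) * a))
  have hc' : OddDist c' := by
    constructor
    · intro a
      refine Prod.ext ?_ ?_
      · simp [c', hc.neg]
      · funext t
        simp only [c', Prod.snd_neg, Pi.neg_apply, mul_neg, saw_neg]
    · intro a ha
      refine Prod.ext ?_ ?_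
      · exact hc.half a ha
      · funext t
        simp only [c', Prod.snd_zero, Pi.zero_apply]
        apply saw_half
        rw [← mul_add, ha, mul_zero]
    · intro p d hp hpd a
      refine Prod.ext ?_ ?_
      · rw [Prod.fst_sum]
        exact hc.dist p d hp hpd a
      · rw [Prod.snd_sum]
        funext t
        simp only [c', Finset.sum_apply]
        exact saw_dist_unit hpd t a
  have hc4' : Kil P c' := by
    intro s hs
    have hfst : ∀ s : Multiset (ZMod m), (s.map c').sum =
        ((s.map c).sum, fun t : (ZMod m)ˣ => (s.map fun a => saw ((t : ZMod m) * a)).sum) := by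
      intro s
      induction s using Multiset.induction_on with
      | empty =>
        refine Prod.ext ?_ ?_
        · simp
        · funext t; simp
      | cons a s ih =>
        rw [Multiset.map_cons, Multiset.sum_cons, ih]
        refine Prod.ext ?_ ?_
        · simp [c']
        · funext t; simp [c']
    rw [hfst, hc4 s hs]
    refine Prod.ext rfl ?_
    funext t
    exact (hP s hs).saw_sum t
  let T : AddSubgroup (ZMod m → ℤ) :=
    { carrier := {y | ∀ a, y a ≠ 0 → a ∈ B}
      add_mem' := by
        intro y z hy hz a ha
        by_cases h1 : y a = 0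
        · by_cases h2 : z a = 0
          · exact absurd (by simp [h1, h2]) ha
          · exact hz a h2
        · exact hy a h1
      zero_mem' := by intro a ha; exact absurd rfl ha
      neg_mem' := by
        intro y hy a ha
        apply hy a
        simpa using ha }
  let Φ : (ZMod m → ℤ) →+ Q × ((ZMod m)ˣ → ℤ) :=
    { toFun := fun y => ∑ a, y a • c' a
      map_zero' := by simp
      map_add' := by
        intro y z
        simp only [Pi.add_apply, add_smul, sum_add_distrib] }
  let S := T.map Φ
  have hsingle : ∀ a : ZMod m, a ∈ B → c' a ∈ S := by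
    intro a ha
    refine ⟨Pi.single a 1, ?_, ?_⟩
    · intro b hb
      by_cases hba : b = a
      · rw [hba]; exact ha
      · rw [Pi.single_eq_of_ne hba] at hb; exact absurd rfl hb
    · change ∑ b, (Pi.single a (1 : ℤ) : ZMod m → ℤ) b • c' b = c' a
      rw [Finset.sum_eq_single a]
      · simp
      · intro b _ hb; rw [Pi.single_eq_of_ne hb, zero_smul]
      · intro h; exact absurd (mem_univ a) h
  have hall : ∀ a : ZMod m, c' a ∈ S := hgen _ c' hc' hc4' S hsingle
  have hxS : Φ x ∈ S := by
    change ∑ a, x a • c' a ∈ S
    exact S.sum_mem fun a _ => S.zsmul_mem (hall a) _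
  obtain ⟨y, hyT, hyx⟩ := hxS
  have hyx1 : ∑ a, y a • c a = ∑ a, x a • c a := by
    have := congrArg Prod.fst hyx
    change (∑ a, y a • c' a).1 = (∑ a, x a • c' a).1 at this
    rw [Prod.fst_sum, Prod.fst_sum] at this
    simpa [c'] using this
  have hyRel : Rel y := by
    intro t
    have := congrArg (fun w => (Prod.snd w) t) hyx
    change (∑ a, y a • c' a).2 t = (∑ a, x a • c' a).2 t at this
    rw [Prod.snd_sum, Prod.snd_sum, Finset.sum_apply, Finset.sum_apply] at this
    simp only [c', Prod.smul_snd, Pi.smul_apply, smul_eq_mul] at this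
    rw [this]
    exact hx t
  have hB0 : ∀ b ∈ B, (fun a : ZMod m => (y a : ℂ)) b = 0 := by
    apply indep (XO m) _ B _ _ (fun a : ZMod m => (y a : ℂ)) _
    · intro χ hχ
      unfold XO at hχ
      simp only [mem_filter, mem_univ, true_and] at hχ
      exact hχ
    · have := card_XO hm3
      omega
    · intro α hα a
      have hF : OddDist (fun a : ZMod m => ∑ χ ∈ XO m, α χ * SS χ a) := by
        constructor
        · intro a
          simp only [SS_neg, mul_neg, sum_neg_distrib]
        · intro a ha
          apply sum_eq_zero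
          intro χ _
          have h1 : -a = a := neg_eq_of_add_eq_zero_right ha
          have h2 := SS_neg χ a
          rw [h1] at h2
          have h3 : SS χ a = 0 := by
            have : 2 * SS χ a = 0 := by linear_combination h2
            simpa using this
          rw [h3, mul_zero]
        · intro p d hp hpd a
          rw [sum_comm]
          refine sum_congr rfl fun χ _ => ?_
          rw [← mul_sum]
          congr 1
          exact SS_dist χ hpd a
      have hF4 : Kil P (fun a : ZMod m => ∑ χ ∈ XO m, α χ * SS χ a) := by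
        intro s hs
        rw [Multiset.sum_map_sum]
        apply sum_eq_zero
        intro χ _
        rw [Multiset.sum_map_mul_left]
        have := SS_sum_hodge χ (hP s hs)
        rw [this, mul_zero]
      have := hgen ℂ _ hF hF4 ⊥ (fun b hb => by
        rw [AddSubgroup.mem_bot]; exact hα b hb) a
      rwa [AddSubgroup.mem_bot] at this
    · intro χ hχ
      have h1 : ∑ b ∈ B, (y b : ℂ) * SS χ b = ∑ a, (y a : ℂ) * SS χ a := by
        apply sum_subset (subset_univ B)
        intro a _ ha
        by_cases hya : y a = 0
        · rw [hya]; simp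
        · exact absurd (hyT a hya) ha
      rw [h1]
      unfold SS
      have h2 : ∑ a, (y a : ℂ) * ∑ t : (ZMod m)ˣ, χ t * (saw ((t : ZMod m) * a) : ℂ) =
          ∑ t : (ZMod m)ˣ, χ t * ((∑ a, y a * saw ((t : ZMod m) * a) : ℤ) : ℂ) := by
        simp only [mul_sum, Int.cast_sum, Int.cast_mul]
        rw [sum_comm]
        refine sum_congr rfl fun t _ => sum_congr rfl fun a _ => ?_
        ring
      rw [h2]
      apply sum_eq_zero
      intro t _
      rw [hyRel t]; simp
  rw [← hyx1]
  apply sum_eq_zero
  intro a _
  by_cases hya : y a = 0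
  · rw [hya, zero_smul]
  · have := hB0 a (hyT a hya)
    simp only [Int.cast_eq_zero] at this
    exact absurd this hya


theorem generated_of_fullP {m0 k : ℕ} [NeZero m0] (hk : k * m0 = m) (hred : Red m m0 k)
    (hfull : FullP m0 (SurfaceOrCurveProduct m0)) {s : Multiset (ZMod m)} (hs : IsHodge m s)
    (hne : s ≠ 0) : Generated m (SurfaceOrCurveProduct m) s := by
  obtain ⟨x0, hx0, he⟩ := hred _ (cQ m (SurfaceOrCurveProduct m)) cQ_oddDist _ hs.rel
  have h4 : Kil (SurfaceOrCurveProduct m0)
      (fun b : ZMod m0 => cQ m (SurfaceOrCurveProduct m) (iota k b)) := by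
    intro s0 hs0
    have h1 : SurfaceOrCurveProduct m (s0.map (iota k : ZMod m0 → ZMod m)) := by
      rcases hs0 with ⟨h1, h2⟩ | h1
      · exact Or.inl ⟨h1.iota hk, by rw [Multiset.card_map]; exact h2⟩
      · exact Or.inr (h1.lift hk)
    have h2 := cQ_sum_eq_zero (Generated.ofBase (m := m) (base := SurfaceOrCurveProduct m)
      (s0.map (iota k : ZMod m0 → ZMod m)) h1)
    rw [Multiset.map_map] at h2
    exact h2
  rw [hfull _ _ (cQ_oddDist.comp_iota hk) h4 x0 hx0, sum_count] at he
  rw [cQ_sum, QuotientAddGroup.eq_zero_iff] at he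
  exact generated_of_mem_LL base_good base_neg hs.1 hs.2.1 hne he

end Pool.Agent.Y2.Cv
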